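import Mathlib
import Pool.Agent.Y214.HB.Stm

/-!
# HB-PROD (job 10749, helper96): divergent sums of 1/p
-/

set_option autoImplicit false

namespace Pool.Agent.Y96.HB

open Pool.Agent.Y214.HB Filter

theorem factor_le {p : ℕ} (hp : 2 ≤ p) :
    0 ≤ 1 - ((p : ℝ) - 1) / (p : ℝ) ^ 2 ∧
      1 - ((p : ℝ) - 1) / (p : ℝ) ^ 2 ≤ Real.exp (-(1 / 2 * (1 / (p:ℝ)))) := by
  have h2 : (2:ℝ) ≤ p := by exact_mod_cast hp
  have h0 : (0:ℝ) < p := by linarith
  constructor
  · rw [sub_nonneg, div_le_one (by positivity)]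
    nlinarith
  · refine le_trans ?_ (Real.one_sub_le_exp_neg _)
    have : 1 / 2 * (1 / (p:ℝ)) ≤ ((p : ℝ) - 1) / (p : ℝ) ^ 2 := by
      rw [le_div_iff₀ (by positivity)]
      have : 1 / 2 * (1 / (p:ℝ)) * (p:ℝ) ^ 2 = 1 / 2 * p := by field_simp
      rw [this]
      linarith
    linarith

theorem t_PROD : S_PROD := by
  intro L hL hD ε hε m
  classical
  set u : ℕ → ℝ := fun k => L.indicator (fun k : ℕ => (1 : ℝ) / k) k with hu
  have hu0 : ∀ k, 0 ≤ u k := fun k => Set.indicator_nonneg (fun _ _ => by positivity) _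
  have ht := (not_summable_iff_tendsto_nat_atTop_of_nonneg hu0).1 hD
  obtain ⟨N, hN⟩ := (ht.eventually_ge_atTop
    (-(2 * Real.log ε) + ∑ i ∈ Finset.range (m + 1), u i)).exists
  refine ⟨((Finset.range N).filter (fun p => m < p)).filter (fun p => p ∈ L), ?_, ?_⟩
  · intro p hp
    rw [Finset.mem_filter, Finset.mem_filter] at hp
    exact ⟨hp.2, hp.1.2⟩
  set A := ((Finset.range N).filter (fun p => m < p)).filter (fun p => p ∈ L) with hA
  have h1 : -(2 * Real.log ε) ≤ ∑ p ∈ A, 1 / (p:ℝ) := by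
    have e1 : ∑ p ∈ A, 1 / (p:ℝ) = ∑ p ∈ (Finset.range N).filter (fun p => m < p), u p := by
      rw [hA, Finset.sum_filter]
      refine Finset.sum_congr rfl fun p _ => ?_
      rw [hu]
      simp only [Set.indicator_apply]
    have e2 := Finset.sum_filter_add_sum_filter_not (Finset.range N) (fun p => m < p) u
    have e3 : ∑ p ∈ (Finset.range N).filter (fun p => ¬ m < p), u p ≤
        ∑ i ∈ Finset.range (m + 1), u i := by
      refine Finset.sum_le_sum_of_subset_of_nonneg ?_ fun i _ _ => hu0 i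
      intro p hp
      rw [Finset.mem_filter] at hp
      exact Finset.mem_range.2 (by omega)
    rw [e1]
    linarith
  have h2 : ∏ p ∈ A, (1 - ((p : ℝ) - 1) / (p : ℝ) ^ 2) ≤ ∏ p ∈ A, Real.exp (-(1 / 2 * (1 / (p:ℝ)))) := by
    have hA2 : ∀ p ∈ A, 2 ≤ p := by
      intro p hp
      rw [hA, Finset.mem_filter] at hp
      exact (hL p hp.2).two_le
    exact Finset.prod_le_prod (fun p hp => (factor_le (hA2 p hp)).1)
      fun p hp => (factor_le (hA2 p hp)).2
  refine h2.trans ?_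
  rw [← Real.exp_sum, Finset.sum_neg_distrib, ← Finset.mul_sum]
  rw [← Real.le_log_iff_exp_le hε]
  linarith

theorem Fm_finite (n d H : ℕ) : (Fm n d H).Finite := by
  classical
  set S := Finset.finsuppAntidiag (Finset.univ : Finset (Fin (n + 1))) d with hS
  have hsupp : ∀ f ∈ Fm n d H, ∀ u, u ∉ S → f.coeff u = 0 := by
    intro f hf u hu
    refine hf.1.coeff_eq_zero fun h => hu ?_
    rw [hS, Finset.mem_finsuppAntidiag]
    refine ⟨?_, Finset.subset_univ _⟩
    rw [← h, Finsupp.degree_eq_sum]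
  refine Set.Finite.of_finite_image (f := fun f (u : S) => f.coeff u.1) ?_ ?_
  · refine (Set.Finite.pi' (fun _ : S => Set.finite_Icc (-(H:ℤ)) H)).subset ?_
    rintro _ ⟨f, hf, rfl⟩ u
    exact abs_le.1 (hf.2 u)
  · intro f hf g hg h
    ext u
    by_cases hu : u ∈ S
    · exact congrFun h ⟨u, hu⟩
    · rw [hsupp f hf u hu, hsupp g hg u hu]

theorem t_DEN (h1 : S_DEN1) (h2 : S_PROD) : S_DEN := by
  intro n d hn hd L hL hD a ha ε hε m
  obtain ⟨A, hA, hP⟩ := h2 L hL hD (ε / 2) (by positivity) m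
  obtain ⟨H₀, hH⟩ := h1 n d hn hd A (fun p hp => hL p (hA p hp).1) a (fun p hp => ha p (hA p hp).1)
    (ε / 2) (by positivity)
  refine ⟨max m (A.sup id), H₀, le_max_left _ _, fun H hHH => ?_⟩
  have h3 : (({f | f ∈ Fm n d H ∧ ∀ p ∈ L, m < p → p ≤ max m (A.sup id) → ¬ Test f p (a p)} :
      Set _).ncard : ℝ) ≤ (({f | f ∈ Fm n d H ∧ ∀ p ∈ A, ¬ Test f p (a p)} : Set _).ncard : ℝ) := by
    have : ({f | f ∈ Fm n d H ∧ ∀ p ∈ L, m < p → p ≤ max m (A.sup id) → ¬ Test f p (a p)} :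
      Set (MvPolynomial (Fin (n + 1)) ℤ)).ncard ≤
        ({f | f ∈ Fm n d H ∧ ∀ p ∈ A, ¬ Test f p (a p)} : Set _).ncard := by
      refine Set.ncard_le_ncard ?_ ((Fm_finite n d H).subset fun f hf => hf.1)
      rintro f ⟨hf, hf2⟩
      refine ⟨hf, fun p hp => hf2 p (hA p hp).1 (hA p hp).2 ?_⟩
      exact (Finset.le_sup (f := id) hp).trans (le_max_right _ _)
    exact_mod_cast this
  refine h3.trans ((hH H hHH).trans ?_)
  have h4 : (0:ℝ) ≤ ((Fm n d H).ncard : ℝ) := by positivity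
  refine mul_le_mul_of_nonneg_right ?_ h4
  linarith

end Pool.Agent.Y96.HB
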